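import Mathlib

set_option autoImplicit false

/-!
Signs of completely multiplicative functions at monic quadratic polynomials.
`F b c x y = x² + b x y + c y²`, `f(m) = F b c m 1`.
-/

namespace Pool.Agent.T2H18.QS

/-- the norm form of the monic polynomial `X² + b X + c` -/
def F (b c x y : ℤ) : ℤ := x ^ 2 + b * x * y + c * y ^ 2

/-- a completely multiplicative function with values `±1` on the nonzero integers, even -/
structure CM (χ : ℤ → ℤ) : Prop where
  sgn : ∀ n, n ≠ 0 → χ n = 1 ∨ χ n = -1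
  mul : ∀ m n, m ≠ 0 → n ≠ 0 → χ (m * n) = χ m * χ n

variable {χ : ℤ → ℤ}

lemma CM.sq (h : CM χ) {n : ℤ} (hn : n ≠ 0) : χ n * χ n = 1 := by
  rcases h.sgn n hn with h1 | h1 <;> rw [h1] <;> norm_num

lemma CM.pow2 (h : CM χ) {n : ℤ} (hn : n ≠ 0) : χ (n ^ 2) = 1 := by
  rw [_root_.pow_two, h.mul n n hn hn, h.sq hn]

lemma CM.one (h : CM χ) : χ 1 = 1 := by
  have := h.pow2 (n := 1) one_ne_zero
  simpa using this

lemma CM.eq_of_mul (h : CM χ) {m n : ℤ} (hm : m ≠ 0) (hn : n ≠ 0) (h1 : χ (m * n) = 1) :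
    χ m = χ n := by
  rw [h.mul m n hm hn] at h1
  rcases h.sgn m hm with h2 | h2 <;> rcases h.sgn n hn with h3 | h3 <;> rw [h2, h3] at h1 <;>
    rw [h2, h3] <;> norm_num at h1

/-- the triangle identity -/
lemma tri (b c m : ℤ) : F b c m 1 * F b c (m + 1) 1 = F b c (m + F b c m 1) 1 := by
  unfold F; ring

/-- the composition identity for a pair of determinant one -/
lemma comp (b c x y z w : ℤ) (h : x * w - y * z = 1) :
    F b c x y * F b c z w = F b c (x * z + b * y * z + c * y * w) 1 := by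
  have h1 : F b c x y * F b c z w = F b c (x * z + b * y * z + c * y * w) (x * w - y * z) := by
    unfold F; ring
  rw [h1, h]

/-- the step `m → m + 1` -/
lemma F_succ (b c m : ℤ) : F b c (m + 1) 1 = F b c m 1 + (2 * m + b) + 1 := by
  unfold F; ring

lemma up (b c : ℤ) {m : ℤ} (h1 : 1 ≤ F b c m 1) (h2 : 0 ≤ 2 * m + b) (k : ℕ) :
    1 ≤ F b c (m + k) 1 ∧ 0 ≤ 2 * (m + k) + b := by
  induction k with
  | zero => simpa using ⟨h1, h2⟩
  | succ k ih =>
    obtain ⟨h3, h4⟩ := ih
    have h5 : m + ((k + 1 : ℕ) : ℤ) = (m + k) + 1 := by push_cast; ring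
    rw [h5, F_succ]
    constructor
    · linarith
    · linarith

/-- eventually constant implies eventually one -/
lemma const_one (h : CM χ) (b c : ℤ) (N0 : ℤ) (ε : ℤ)
    (hc : ∀ m, N0 ≤ m → F b c m 1 ≠ 0 → χ (F b c m 1) = ε)
    (m : ℤ) (hm : N0 ≤ m) (h1 : 1 ≤ F b c m 1) (h2 : 0 ≤ 2 * m + b) : ε = 1 := by
  have h3 := up b c h1 h2 1
  push_cast at h3
  have h4 := tri b c m
  have h5 : F b c m 1 ≠ 0 := by omega
  have h6 : F b c (m + 1) 1 ≠ 0 := by omega
  have h7 : F b c (m + F b c m 1) 1 ≠ 0 := by rw [← h4]; exact mul_ne_zero h5 h6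
  have h8 := hc m hm h5
  have h9 := hc (m + 1) (by linarith) h6
  have h10 := hc (m + F b c m 1) (by linarith) h7
  rw [← h4, h.mul _ _ h5 h6, h8, h9] at h10
  rcases h.sgn _ h5 with h11 | h11
  · rw [h8] at h11; exact h11
  · rw [h8] at h11; rw [h11] at h10; norm_num at h10

/-- downward induction -/
lemma down (h : CM χ) (b c : ℤ) (N0 : ℤ)
    (hc : ∀ m, N0 ≤ m → 1 ≤ F b c m 1 → χ (F b c m 1) = 1) :
    ∀ k : ℕ, ∀ m : ℤ, N0 ≤ m + k → 1 ≤ F b c m 1 → 0 ≤ 2 * m + b → χ (F b c m 1) = 1 := by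
  intro k
  induction k with
  | zero => intro m hm h1 _; exact hc m (by simpa using hm) h1
  | succ k ih =>
    intro m hm h1 h2
    have h3 := up b c h1 h2 1
    push_cast at h3
    have h6 := ih (m + 1) (by push_cast at hm; linarith) h3.1 (by linarith [h3.2])
    have h4 := tri b c m
    have h5 : 1 ≤ F b c (m + F b c m 1) 1 := by
      rw [← h4]; nlinarith [h3.1]
    have h7 := ih (m + F b c m 1) (by push_cast at hm; linarith) h5 (by linarith)
    rw [← h4, h.mul _ _ (by omega) (by omega), h6, mul_one] at h7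
    exact h7

/-- the bound for the sector -/
def Mb (b c : ℤ) : ℤ := |b| + |c| + 1

lemma Mb_pos (b c : ℤ) : 1 ≤ Mb b c := by
  unfold Mb
  have := abs_nonneg b
  have := abs_nonneg c
  linarith

lemma sec_pos (b c x y : ℤ) (hy : 0 ≤ y) (hx : Mb b c * y ≤ x) (hx1 : 1 ≤ x) :
    1 ≤ F b c x y := by
  have hM := Mb_pos b c
  have hb1 := neg_abs_le b
  have hc1 := neg_abs_le c
  have hb := abs_nonneg b
  have hcn := abs_nonneg c
  rcases hy.eq_or_lt with hy0 | hy0
  · rw [← hy0]; unfold F; nlinarith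
  · have hxy : y ≤ x := by nlinarith
    have e1 : x * (Mb b c * y) ≤ x * x := mul_le_mul_of_nonneg_left hx (by linarith)
    have e2 : -(|b| * (x * y)) ≤ b * (x * y) := by nlinarith [mul_pos (by linarith : 0 < x) hy0]
    have e3 : -(|c| * (y * y)) ≤ c * (y * y) := by nlinarith [mul_pos hy0 hy0]
    have e4 : |c| * (y * y) ≤ |c| * (x * y) := by
      apply mul_le_mul_of_nonneg_left _ hcn
      nlinarith
    unfold F
    unfold Mb at e1
    nlinarith

lemma sec_polar (b c x y z w : ℤ) (hy : 0 ≤ y) (hx : Mb b c * y ≤ x) (hw : 0 ≤ w)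
    (hz : Mb b c * w ≤ z) :
    0 ≤ 2 * (x * z) + b * (x * w + y * z) + 2 * (c * (y * w)) := by
  have hM := Mb_pos b c
  have hb1 := neg_abs_le b
  have hc1 := neg_abs_le c
  have hb := abs_nonneg b
  have hcn := abs_nonneg c
  have hx0 : 0 ≤ x := by nlinarith
  have hz0 : 0 ≤ z := by nlinarith
  have hxy : y ≤ x := by nlinarith
  have hzw : w ≤ z := by nlinarith
  have e1 : x * (Mb b c * w) ≤ x * z := mul_le_mul_of_nonneg_left hz hx0
  have e1' : z * (Mb b c * y) ≤ z * x := mul_le_mul_of_nonneg_left hx hz0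
  have hS : 0 ≤ x * w + y * z := by positivity
  have hyw : 0 ≤ y * w := by positivity
  have e2 : -(|b| * (x * w + y * z)) ≤ b * (x * w + y * z) := by nlinarith
  have e3 : -(|c| * (y * w)) ≤ c * (y * w) := by nlinarith
  have e5 : 2 * (y * w) ≤ x * w + y * z := by nlinarith
  have e4 : |c| * (2 * (y * w)) ≤ |c| * (x * w + y * z) := mul_le_mul_of_nonneg_left e5 hcn
  unfold Mb at e1 e1'
  nlinarith

/-- Farey induction -/
lemma farey (h : CM χ) (b c : ℤ)
    (hg : ∀ m, 1 ≤ F b c m 1 → 0 ≤ 2 * m + b → χ (F b c m 1) = 1) :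
    ∀ n : ℕ, ∀ x y : ℤ, y = n → IsCoprime x y → Mb b c * y ≤ x → 1 ≤ x →
      χ (F b c x y) = 1 := by
  intro n
  induction n using Nat.strong_induction_on with
  | _ n ih =>
    intro x y hyn hxy hx hx1
    rcases Nat.lt_or_ge n 1 with hn | hn
    · have hn0 : n = 0 := by omega
      subst hn0
      have hy0 : y = 0 := by simpa using hyn
      subst hy0
      have : F b c x 0 = x ^ 2 := by unfold F; ring
      rw [this]
      exact h.pow2 (by omega)
    rcases hn.eq_or_lt with hn1 | hn2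
    · have hy1 : y = 1 := by rw [hyn, ← hn1]; rfl
      subst hy1
      have hpos := sec_pos b c x 1 (by norm_num) hx hx1
      apply hg x hpos
      have hM : Mb b c = |b| + |c| + 1 := rfl
      have hb1 := neg_abs_le b
      have hb := abs_nonneg b
      have hcn := abs_nonneg c
      rw [hM] at hx
      linarith
    · -- y ≥ 2
      have hy2 : 2 ≤ y := by rw [hyn]; exact_mod_cast hn2
      obtain ⟨u, v, huv⟩ := hxy
      -- u * x + v * y = 1; w = u mod y
      set w : ℤ := u % y with hw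
      have hw0 : 0 ≤ w := Int.emod_nonneg _ (by omega)
      have hwy : w < y := Int.emod_lt_of_pos _ (by omega)
      obtain ⟨q, hq⟩ : ∃ q, u = w + y * q := ⟨u / y, by rw [hw]; exact (Int.emod_add_mul_ediv u y).symm⟩
      set z : ℤ := -(v + q * x) with hz
      have hdet : x * w - y * z = 1 := by
        rw [hz]
        have : u * x + v * y = 1 := huv
        rw [hq] at this
        linarith [this]
      have hw1 : 1 ≤ w := by
        rcases hw0.eq_or_lt with h0 | h0
        · exfalso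
          rw [← h0] at hdet
          have : y * (-z) = 1 := by linarith
          have h2 : y ∣ 1 := ⟨-z, this.symm⟩
          have := Int.le_of_dvd one_pos h2
          omega
        · omega
      have hzM : Mb b c * w ≤ z := by
        have h1 : y * (Mb b c * w) ≤ y * z + 1 := by
          have : y * z = x * w - 1 := by linarith
          rw [this]
          nlinarith
        by_contra hlt
        push Not at hlt
        have h2 : z + 1 ≤ Mb b c * w := hlt
        have h3 : y * (z + 1) ≤ y * (Mb b c * w) := mul_le_mul_of_nonneg_left h2 (by omega)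
        nlinarith
      have hz1 : 1 ≤ z := by
        have := Mb_pos b c
        nlinarith
      have hcop : IsCoprime z w := ⟨-y, x, by linarith⟩
      have hwn : w = (w.toNat : ℤ) := (Int.toNat_of_nonneg hw0).symm
      have hlt : w.toNat < n := by
        have : ((w.toNat : ℕ) : ℤ) < (n : ℤ) := by rw [← hwn, ← hyn]; exact hwy
        exact_mod_cast this
      have h1 := ih w.toNat hlt z w hwn hcop hzM hz1
      have h2 := comp b c x y z w hdet
      have p1 := sec_pos b c x y (by omega) hx hx1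
      have p2 := sec_pos b c z w hw0 hzM hz1
      have p3 : 1 ≤ F b c (x * z + b * y * z + c * y * w) 1 := by
        rw [← h2]; nlinarith
      have p4 : 0 ≤ 2 * (x * z + b * y * z + c * y * w) + b := by
        have h3 := sec_polar b c x y z w (by omega) hx hw0 hzM
        have h4 : 2 * (x * z) + b * (x * w + y * z) + 2 * (c * (y * w)) =
          2 * (x * z + b * y * z + c * y * w) + b * (x * w - y * z) := by ring
        rw [h4, hdet, mul_one] at h3
        exact h3
      have h5 := hg _ p3 p4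
      rw [← h2] at h5
      rw [h.eq_of_mul (by omega) (by omega) h5]
      exact h1

/-- all vectors of the sector -/
lemma sector (h : CM χ) (b c : ℤ)
    (hg : ∀ m, 1 ≤ F b c m 1 → 0 ≤ 2 * m + b → χ (F b c m 1) = 1)
    (x y : ℤ) (hy : 0 ≤ y) (hx : Mb b c * y ≤ x) (hx1 : 1 ≤ x) :
    χ (F b c x y) = 1 := by
  have hg0 : (Int.gcd x y : ℤ) ≠ 0 := by
    intro h0
    have h0' : Int.gcd x y = 0 := by exact_mod_cast h0
    rw [Int.gcd_eq_zero_iff] at h0'
    omega
  have hgpos : (0 : ℤ) < Int.gcd x y := lt_of_le_of_ne (by positivity) (Ne.symm hg0)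
  obtain ⟨x', hx'⟩ := Int.gcd_dvd_left (a := x) (b := y)
  obtain ⟨y', hy'⟩ := Int.gcd_dvd_right (a := x) (b := y)
  set g : ℤ := (Int.gcd x y : ℤ) with hgdef
  have hcop : IsCoprime x' y' := by
    have h1 : g * (x' * Int.gcdA x y + y' * Int.gcdB x y) = g * 1 := by
      have := Int.gcd_eq_gcd_ab x y
      rw [← hgdef] at this
      calc g * (x' * Int.gcdA x y + y' * Int.gcdB x y) = (g * x') * Int.gcdA x y + (g * y') * Int.gcdB x y := by ring
        _ = x * Int.gcdA x y + y * Int.gcdB x y := by rw [← hx', ← hy']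
        _ = g * 1 := by rw [mul_one]; exact this.symm
    have h2 := mul_left_cancel₀ hg0 h1
    exact ⟨Int.gcdA x y, Int.gcdB x y, by linarith⟩
  have hF : F b c x y = g ^ 2 * F b c x' y' := by
    rw [hx', hy']; unfold F; ring
  have hy0 : 0 ≤ y' := by
    by_contra hneg
    push Not at hneg
    have : g * y' < 0 := mul_neg_of_pos_of_neg hgpos hneg
    rw [← hy'] at this
    omega
  have hx0 : 1 ≤ x' := by
    by_contra hneg
    push Not at hneg
    have : g * x' ≤ 0 := mul_nonpos_of_nonneg_of_nonpos hgpos.le (by omega)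
    rw [← hx'] at this
    omega
  have hxx : Mb b c * y' ≤ x' := by
    have h1 : g * (Mb b c * y') ≤ g * x' := by
      calc g * (Mb b c * y') = Mb b c * (g * y') := by ring
        _ = Mb b c * y := by rw [← hy']
        _ ≤ x := hx
        _ = g * x' := hx'
    exact le_of_mul_le_mul_left h1 hgpos
  have h1 := farey h b c hg y'.toNat x' y' (Int.toNat_of_nonneg hy0).symm hcop hxx hx0
  have hp := sec_pos b c x' y' hy0 hxx hx0
  rw [hF, h.mul _ _ (pow_ne_zero 2 hg0) (by omega), h.pow2 hg0, h1, one_mul]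

/-- numerical part of the rotation -/
lemma numX (x y b M v N u : ℤ) (hN : 1 ≤ N) (hM : 1 ≤ M) (hy : 0 ≤ y) (hT : 0 ≤ 2 * x + b * y)
    (hv : v = |x| + M * y + 1) (hu0 : 1 ≤ u) (h1 : v ^ 2 * N < u ^ 2)
    (h2 : (u - 1) ^ 2 ≤ v ^ 2 * N) :
    0 ≤ y * (u ^ 2 - v ^ 2 * N) ∧
    M * (y * (u ^ 2 - v ^ 2 * N)) ≤ u ^ 2 * x + v ^ 2 * N * (x + b * y) + 2 * u * v * N ∧
    1 ≤ u ^ 2 * x + v ^ 2 * N * (x + b * y) + 2 * u * v * N := by
  have hx0 := abs_nonneg x
  have hMy : 0 ≤ M * y := mul_nonneg (by linarith) hy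
  have hv1 : 1 ≤ v := by linarith
  obtain ⟨d, hd⟩ : ∃ d, d = u ^ 2 - v ^ 2 * N := ⟨_, rfl⟩
  have hd0 : 0 ≤ d := by linarith
  have hd1 : d ≤ 2 * u := by nlinarith
  have e2 : 0 ≤ v ^ 2 * N * (2 * x + b * y) := mul_nonneg (by positivity) hT
  have e3 : -((2 * u) * |x|) ≤ d * x := by
    have h3 := neg_abs_le x
    have h4 : d * (-|x|) ≤ d * x := mul_le_mul_of_nonneg_left h3 hd0
    have h5 : d * |x| ≤ 2 * u * |x| := mul_le_mul_of_nonneg_right hd1 hx0
    linarith
  have huv : 0 < u * v := mul_pos (by linarith) (by linarith)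
  have e4 : 2 * u * v ≤ 2 * u * v * N := by
    have : 2 * u * v * 1 ≤ 2 * u * v * N := mul_le_mul_of_nonneg_left hN (by linarith)
    linarith
  have e5 : 2 * u * v = 2 * u * |x| + 2 * u * (M * y) + 2 * u := by rw [hv]; ring
  have e6 : M * (y * d) ≤ 2 * u * (M * y) := by
    have : (M * y) * d ≤ (M * y) * (2 * u) := mul_le_mul_of_nonneg_left hd1 hMy
    linarith
  have e1 : u ^ 2 * x + v ^ 2 * N * (x + b * y) + 2 * u * v * N =
    v ^ 2 * N * (2 * x + b * y) + d * x + 2 * u * v * N := by rw [hd]; ring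
  have e7 : 0 ≤ 2 * u * (M * y) := mul_nonneg (by linarith) hMy
  rw [← hd, e1]
  refine ⟨mul_nonneg hy hd0, by linarith, by linarith⟩

/-- vectors of positive norm, first case -/
lemma allpos1 (h : CM χ) (b c : ℤ)
    (hg : ∀ m, 1 ≤ F b c m 1 → 0 ≤ 2 * m + b → χ (F b c m 1) = 1)
    (x y : ℤ) (hN : 1 ≤ F b c x y) (hy : 0 ≤ y) (hT : 0 ≤ 2 * x + b * y) :
    χ (F b c x y) = 1 := by
  obtain ⟨N, hNdef⟩ : ∃ N, N = F b c x y := ⟨_, rfl⟩
  rw [← hNdef] at hN ⊢
  have hM : 1 ≤ Mb b c := Mb_pos b c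
  obtain ⟨v, hv⟩ : ∃ v, v = |x| + Mb b c * y + 1 := ⟨_, rfl⟩
  have hvN : 0 ≤ v ^ 2 * N := by positivity
  obtain ⟨n, hn⟩ : ∃ n : ℕ, (n : ℤ) = v ^ 2 * N := ⟨(v ^ 2 * N).toNat, Int.toNat_of_nonneg hvN⟩
  obtain ⟨u, hu⟩ : ∃ u : ℤ, u = (Nat.sqrt n : ℤ) + 1 := ⟨_, rfl⟩
  have hu0 : 1 ≤ u := by
    have h0 : (0 : ℤ) ≤ (Nat.sqrt n : ℤ) := by positivity
    linarith
  have h1 : v ^ 2 * N < u ^ 2 := by
    rw [← hn, hu]
    have := Nat.lt_succ_sqrt' n
    exact_mod_cast this
  have h2 : (u - 1) ^ 2 ≤ v ^ 2 * N := by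
    rw [← hn, hu]
    have := Nat.sqrt_le' n
    have h3 : ((Nat.sqrt n : ℤ) + 1 - 1) = (Nat.sqrt n : ℤ) := by ring
    rw [h3]
    exact_mod_cast this
  obtain ⟨hY0, hX1, hX2⟩ := numX x y b (Mb b c) v N u hN hM hy hT hv hu0 h1 h2
  have hF : F b c (u ^ 2 * x + v ^ 2 * N * (x + b * y) + 2 * u * v * N)
      (y * (u ^ 2 - v ^ 2 * N)) = N * (F b c (u + v * (x + b * y)) (-(v * y))) ^ 2 := by
    rw [hNdef]
    unfold F
    ring
  have h3 := sector h b c hg _ _ hY0 hX1 hX2
  have hpos := sec_pos b c _ _ hY0 hX1 hX2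
  have hw : F b c (u + v * (x + b * y)) (-(v * y)) ≠ 0 := by
    intro h0
    rw [h0] at hF
    rw [hF] at hpos
    norm_num at hpos
  rw [hF, h.mul _ _ (by omega) (pow_ne_zero 2 hw), h.pow2 hw, mul_one] at h3
  exact h3

/-- all vectors of positive norm -/
lemma allpos (h : CM χ) (b c : ℤ)
    (hg : ∀ m, 1 ≤ F b c m 1 → 0 ≤ 2 * m + b → χ (F b c m 1) = 1)
    (x y : ℤ) (hN : 1 ≤ F b c x y) : χ (F b c x y) = 1 := by
  have key2 : ∀ x y : ℤ, 1 ≤ F b c x y → 0 ≤ 2 * x + b * y → χ (F b c x y) = 1 := by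
    intro x y hN hT
    rcases le_or_gt 0 y with hy | hy
    · exact allpos1 h b c hg x y hN hy hT
    · have e : F b c (x + b * y) (-y) = F b c x y := by unfold F; ring
      have := allpos1 h b c hg (x + b * y) (-y) (by rw [e]; exact hN) (by omega) (by linarith)
      rwa [e] at this
  rcases le_or_gt 0 (2 * x + b * y) with hT | hT
  · exact key2 x y hN hT
  · have e : F b c (-x) (-y) = F b c x y := by unfold F; ring
    have := key2 (-x) (-y) (by rw [e]; exact hN) (by linarith)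
    rwa [e] at this

end Pool.Agent.T2H18.QS
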