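import Pool.Agent.T2H18.QS.Basic

set_option autoImplicit false

/-!
Legendre's argument: `x² - D y² = ℓ z²` is soluble for every prime `ℓ ≡ 1 (mod 4|D|)`.
-/

namespace Pool.Agent.T2H18.QS

lemma qr (D : ℤ) (hD : D ≠ 0) (ℓ : ℕ) (hℓ : ℓ.Prime) (h1 : ℓ ≡ 1 [MOD 4 * D.natAbs]) :
    ∃ t : ℤ, (ℓ : ℤ) ∣ t ^ 2 - D := by
  have hn : 1 ≤ D.natAbs := Nat.one_le_iff_ne_zero.mpr (Int.natAbs_ne_zero.mpr hD)
  have hodd : Odd ℓ := by
    rcases hℓ.eq_two_or_odd' with h | h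
    · exfalso
      rw [h] at h1
      have h2 : 2 ≡ 1 [MOD 2] := h1.of_dvd ⟨2 * D.natAbs, by ring⟩
      revert h2; decide
    · exact h
  have : Fact ℓ.Prime := ⟨hℓ⟩
  have hJ : jacobiSym D ℓ = 1 := by
    rw [jacobiSym.mod_right D hodd]
    have h2 : ℓ % (4 * D.natAbs) = 1 := by
      have := h1
      unfold Nat.ModEq at this
      rw [this]
      exact Nat.mod_eq_of_lt (by omega)
    rw [h2, jacobiSym.one_right]
  rw [← jacobiSym.legendreSym.to_jacobiSym] at hJ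
  have hD0 : (D : ZMod ℓ) ≠ 0 := by
    intro h0
    have : legendreSym ℓ D = 0 := (legendreSym.eq_zero_iff ℓ D).mpr h0
    rw [this] at hJ
    norm_num at hJ
  have hsq := (legendreSym.eq_one_iff ℓ hD0).mp hJ
  obtain ⟨r, hr⟩ := hsq
  refine ⟨(r.val : ℤ), ?_⟩
  rw [← ZMod.intCast_zmod_eq_zero_iff_dvd]
  push_cast
  rw [ZMod.natCast_zmod_val, hr]
  ring

lemma not_sq_mul (ℓ n : ℕ) (hℓ : ℓ.Prime) (hn : 1 ≤ n) (hlt : n < ℓ) (x : ℤ) :
    x ^ 2 ≠ ℓ * n := by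
  intro h
  have h1 : x.natAbs ^ 2 = ℓ * n := by
    have : ((x.natAbs ^ 2 : ℕ) : ℤ) = ((ℓ * n : ℕ) : ℤ) := by
      push_cast
      rw [sq_abs]
      exact h
    exact_mod_cast this
  have h2 : ℓ ∣ x.natAbs ^ 2 := ⟨n, h1⟩
  have h3 : ℓ ∣ x.natAbs := hℓ.dvd_of_dvd_pow h2
  obtain ⟨k, hk⟩ := h3
  rw [hk] at h1
  have h4 : ℓ * (ℓ * k ^ 2) = ℓ * n := by rw [← h1]; ring
  have h5 := Nat.eq_of_mul_eq_mul_left hℓ.pos h4
  have h6 : ℓ ∣ n := ⟨k ^ 2, h5.symm⟩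
  have := Nat.le_of_dvd (by omega) h6
  omega

lemma nonsq (D : ℤ) (hD : ¬ IsSquare D) {x y : ℤ} (h : x ^ 2 = D * y ^ 2) : x = 0 ∧ y = 0 := by
  by_cases hy : y = 0
  · subst hy
    simp at h
    exact ⟨h, rfl⟩
  · exfalso
    apply hD
    have hdvd : y ^ 2 ∣ x ^ 2 := ⟨D, by rw [h]; ring⟩
    have h2 : y ∣ x := (Int.pow_dvd_pow_iff (by norm_num)).mp hdvd
    obtain ⟨k, hk⟩ := h2
    rw [hk] at h
    have h3 : y ^ 2 * (k ^ 2) = y ^ 2 * D := by linarith [h, mul_pow y k 2]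
    have h4 := mul_left_cancel₀ (pow_ne_zero 2 hy) h3
    exact ⟨k, by rw [← h4]; ring⟩

lemma pigeon (ℓ n : ℕ) (hℓ : 1 ≤ ℓ) (hn : 1 ≤ n) (t : ℤ) : ∃ x y z : ℤ,
    (x ≠ 0 ∨ y ≠ 0 ∨ z ≠ 0) ∧ x ^ 2 ≤ ℓ * n ∧ y ^ 2 ≤ ℓ ∧ z ^ 2 ≤ n ∧
      (ℓ : ℤ) ∣ x - t * y ∧ (n : ℤ) ∣ x - z := by
  classical
  have : NeZero ℓ := ⟨by omega⟩
  have : NeZero n := ⟨by omega⟩
  let A : Finset (ℕ × ℕ × ℕ) := Finset.range (Nat.sqrt (ℓ * n) + 1) ×ˢ
    (Finset.range (Nat.sqrt ℓ + 1) ×ˢ Finset.range (Nat.sqrt n + 1))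
  let φ : ℕ × ℕ × ℕ → ZMod ℓ × ZMod n := fun p => ((p.1 : ZMod ℓ) - (t : ZMod ℓ) * (p.2.1 : ZMod ℓ),
    (p.1 : ZMod n) - (p.2.2 : ZMod n))
  have hcard : (Finset.univ : Finset (ZMod ℓ × ZMod n)).card < A.card := by
    rw [Finset.card_univ, Fintype.card_prod, ZMod.card, ZMod.card]
    simp only [A, Finset.card_product, Finset.card_range]
    have a1 : ℓ * n < (Nat.sqrt (ℓ * n) + 1) ^ 2 := Nat.lt_succ_sqrt' _
    have a2 : ℓ < (Nat.sqrt ℓ + 1) ^ 2 := Nat.lt_succ_sqrt' _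
    have a3 : n < (Nat.sqrt n + 1) ^ 2 := Nat.lt_succ_sqrt' _
    have a4 : (ℓ * n) ^ 2 < ((Nat.sqrt (ℓ * n) + 1) * ((Nat.sqrt ℓ + 1) * (Nat.sqrt n + 1))) ^ 2 := by
      calc (ℓ * n) ^ 2 = (ℓ * n) * (ℓ * n) := by ring
        _ < (Nat.sqrt (ℓ * n) + 1) ^ 2 * ((Nat.sqrt ℓ + 1) ^ 2 * (Nat.sqrt n + 1) ^ 2) := by
          apply Nat.mul_lt_mul'' a1
          exact Nat.mul_lt_mul'' a2 a3
        _ = _ := by ring
    exact lt_of_pow_lt_pow_left₀ 2 (Nat.zero_le _) a4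
  obtain ⟨p, hp, q, hq, hpq, he⟩ := Finset.exists_ne_map_eq_of_card_lt_of_maps_to hcard
    (f := φ) (fun _ _ => Finset.mem_coe.mpr (Finset.mem_univ _))
  simp only [A, Finset.mem_product, Finset.mem_range] at hp hq
  have he1 : ((p.1 : ZMod ℓ) - (t : ZMod ℓ) * (p.2.1 : ZMod ℓ)) =
    ((q.1 : ZMod ℓ) - (t : ZMod ℓ) * (q.2.1 : ZMod ℓ)) := congrArg Prod.fst he
  have he2 : ((p.1 : ZMod n) - (p.2.2 : ZMod n)) = ((q.1 : ZMod n) - (q.2.2 : ZMod n)) :=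
    congrArg Prod.snd he
  have bd : ∀ (a b m : ℕ), a < Nat.sqrt m + 1 → b < Nat.sqrt m + 1 →
      ((a : ℤ) - b) ^ 2 ≤ m := by
    intro a b m ha hb
    have h1 : ((a : ℤ) - b) ^ 2 ≤ (Nat.sqrt m : ℤ) ^ 2 := by
      apply sq_le_sq'
      · have : (b : ℤ) ≤ Nat.sqrt m := by exact_mod_cast Nat.lt_succ_iff.mp hb
        have h0 : (0 : ℤ) ≤ a := by positivity
        linarith
      · have : (a : ℤ) ≤ Nat.sqrt m := by exact_mod_cast Nat.lt_succ_iff.mp ha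
        have h0 : (0 : ℤ) ≤ b := by positivity
        linarith
    have h2 : ((Nat.sqrt m : ℤ)) ^ 2 ≤ m := by exact_mod_cast Nat.sqrt_le' m
    linarith
  refine ⟨(p.1 : ℤ) - q.1, (p.2.1 : ℤ) - q.2.1, (p.2.2 : ℤ) - q.2.2, ?_, ?_, ?_, ?_, ?_, ?_⟩
  · by_contra hne
    push Not at hne
    obtain ⟨e1, e2, e3⟩ := hne
    apply hpq
    have f1 : p.1 = q.1 := by exact_mod_cast sub_eq_zero.mp e1
    have f2 : p.2.1 = q.2.1 := by exact_mod_cast sub_eq_zero.mp e2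
    have f3 : p.2.2 = q.2.2 := by exact_mod_cast sub_eq_zero.mp e3
    exact Prod.ext f1 (Prod.ext f2 f3)
  · have := bd p.1 q.1 (ℓ * n) hp.1 hq.1
    push_cast at this
    exact this
  · exact bd _ _ _ hp.2.1 hq.2.1
  · exact bd _ _ _ hp.2.2 hq.2.2
  · rw [← ZMod.intCast_zmod_eq_zero_iff_dvd]
    push_cast
    linear_combination he1
  · rw [← ZMod.intCast_zmod_eq_zero_iff_dvd]
    push_cast
    linear_combination he2

/-- Legendre -/
theorem legendre (D : ℤ) (hD : ¬ IsSquare D) (hD1 : D ≠ -1) (ℓ : ℕ) (hℓ : ℓ.Prime)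
    (h1 : ℓ ≡ 1 [MOD 4 * D.natAbs]) : ∃ X Y Z : ℤ, Z ≠ 0 ∧ X ^ 2 - D * Y ^ 2 = ℓ * Z ^ 2 := by
  have hD0 : D ≠ 0 := by
    intro h; apply hD; rw [h]; exact ⟨0, by norm_num⟩
  obtain ⟨n, hn⟩ : ∃ n, n = D.natAbs := ⟨_, rfl⟩
  have hn1 : 1 ≤ n := by rw [hn]; exact Nat.one_le_iff_ne_zero.mpr (Int.natAbs_ne_zero.mpr hD0)
  have hn2 : 2 ≤ n := by
    by_contra hlt
    have hn' : D.natAbs = 1 := by omega
    rcases Int.natAbs_eq D with h | h
    · rw [hn'] at h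
      apply hD; rw [h]; exact ⟨1, by norm_num⟩
    · rw [hn'] at h
      exact hD1 (by rw [h]; norm_num)
  have hDn : D = n ∨ D = -n := by rw [hn]; exact Int.natAbs_eq D
  have hlt : n < ℓ := by
    have h2 := h1
    rw [← hn] at h2
    by_contra hge
    push Not at hge
    have h3 : ℓ % (4 * n) = 1 % (4 * n) := h2
    rw [Nat.mod_eq_of_lt (by omega), Nat.mod_eq_of_lt (by omega)] at h3
    rw [h3] at hℓ
    exact Nat.not_prime_one hℓ
  have hmodn : (n : ℤ) ∣ (ℓ : ℤ) - 1 := by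
    have h2 : ℓ ≡ 1 [MOD n] := h1.of_dvd ⟨4, by rw [← hn]; ring⟩
    have h3 := (Nat.modEq_iff_dvd.mp h2.symm)
    simpa using h3
  obtain ⟨t, ht⟩ := qr D hD0 ℓ hℓ h1
  obtain ⟨x, y, z, hne, hx, hy, hz, hxy, hxz⟩ := pigeon ℓ n hℓ.one_lt.le hn1 t
  obtain ⟨Q, hQ⟩ : ∃ Q, Q = x ^ 2 - D * y ^ 2 - ℓ * z ^ 2 := ⟨_, rfl⟩
  have hdl : (ℓ : ℤ) ∣ Q := by
    have e : Q = (x - t * y) * (x + t * y) + (t ^ 2 - D) * y ^ 2 - ℓ * z ^ 2 := by rw [hQ]; ring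
    rw [e]
    exact dvd_sub (dvd_add (hxy.mul_right _) (ht.mul_right _)) (dvd_mul_right _ _)
  have hDdvd : (n : ℤ) ∣ D := by
    rcases hDn with h | h
    · exact ⟨1, by rw [h]; ring⟩
    · exact ⟨-1, by rw [h]; ring⟩
  have hdn : (n : ℤ) ∣ Q := by
    have e : Q = (x - z) * (x + z) - D * y ^ 2 - ((ℓ : ℤ) - 1) * z ^ 2 := by rw [hQ]; ring
    rw [e]
    exact dvd_sub (dvd_sub (hxz.mul_right _) (hDdvd.mul_right _)) (hmodn.mul_right _)
  have hcop : IsCoprime (ℓ : ℤ) (n : ℤ) := by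
    rw [Nat.isCoprime_iff_coprime]
    have := Nat.coprime_of_lt_prime (by omega : n ≠ 0) hlt hℓ
    exact this
  have hdiv : (ℓ : ℤ) * n ∣ Q := hcop.mul_dvd hdl hdn
  obtain ⟨q, hq⟩ := hdiv
  have hℓ0 : (0 : ℤ) < ℓ := by exact_mod_cast hℓ.pos
  have hn0 : (0 : ℤ) < n := by exact_mod_cast hn1
  have hln : (0 : ℤ) < ℓ * n := mul_pos hℓ0 hn0
  have hx' : x ^ 2 < ℓ * n := lt_of_le_of_ne hx (not_sq_mul ℓ n hℓ hn1 hlt x)
  have hy' : y ^ 2 < ℓ := by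
    refine lt_of_le_of_ne hy ?_
    intro h
    have := not_sq_mul ℓ 1 hℓ le_rfl hℓ.one_lt y
    apply this
    rw [h]; push_cast; ring
  have hny : (n : ℤ) * y ^ 2 < n * ℓ := mul_lt_mul_of_pos_left hy' hn0
  have hlz : (ℓ : ℤ) * z ^ 2 ≤ ℓ * n := mul_le_mul_of_nonneg_left hz hℓ0.le
  have hy0 : 0 ≤ y ^ 2 := sq_nonneg y
  have hz0 : 0 ≤ z ^ 2 := sq_nonneg z
  have hx0 : 0 ≤ x ^ 2 := sq_nonneg x
  have hny0 : 0 ≤ (n : ℤ) * y ^ 2 := mul_nonneg hn0.le hy0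
  have hlz0 : 0 ≤ (ℓ : ℤ) * z ^ 2 := mul_nonneg hℓ0.le hz0
  have key : Q = 0 ∨ Q = -(ℓ * D) := by
    rcases hDn with hD' | hD'
    · -- D = n
      have hQ' : Q = x ^ 2 - n * y ^ 2 - ℓ * z ^ 2 := by rw [hQ, hD']
      have b1 : -(2 * (ℓ * n)) < Q := by rw [hQ']; nlinarith
      have b2 : Q < ℓ * n := by rw [hQ']; linarith
      have c1 : -2 < q := by
        by_contra hc
        push Not at hc
        have : (ℓ : ℤ) * n * q ≤ ℓ * n * (-2) := mul_le_mul_of_nonneg_left hc hln.le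
        rw [← hq] at this
        linarith
      have c2 : q < 1 := by
        by_contra hc
        push Not at hc
        have : (ℓ : ℤ) * n * 1 ≤ ℓ * n * q := mul_le_mul_of_nonneg_left hc hln.le
        rw [← hq] at this
        linarith
      have c3 : q = -1 ∨ q = 0 := by omega
      rcases c3 with c3 | c3
      · right; rw [hq, c3, hD']; ring
      · left; rw [hq, c3]; ring
    · have hQ' : Q = x ^ 2 + n * y ^ 2 - ℓ * z ^ 2 := by rw [hQ, hD']; ring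
      have b1 : -(ℓ * n) ≤ Q := by rw [hQ']; linarith
      have b2 : Q < 2 * (ℓ * n) := by rw [hQ']; linarith
      have c1 : -1 ≤ q := by
        by_contra hc
        push Not at hc
        have : (ℓ : ℤ) * n * q ≤ ℓ * n * (-2) := mul_le_mul_of_nonneg_left (by omega) hln.le
        rw [← hq] at this
        linarith
      have c2 : q < 2 := by
        by_contra hc
        push Not at hc
        have : (ℓ : ℤ) * n * 2 ≤ ℓ * n * q := mul_le_mul_of_nonneg_left hc hln.le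
        rw [← hq] at this
        linarith
      have c3 : q = -1 ∨ q = 0 ∨ q = 1 := by omega
      rcases c3 with c3 | c3 | c3
      · exfalso
        have hQ1 : x ^ 2 + n * y ^ 2 - ℓ * z ^ 2 = -(ℓ * n) := by rw [← hQ', hq, c3]; ring
        have d1 : x ^ 2 = 0 := by linarith
        have d2 : (n : ℤ) * y ^ 2 = 0 := by linarith
        have d3 : (ℓ : ℤ) * z ^ 2 = ℓ * n := by linarith
        have d4 : z ^ 2 = n := mul_left_cancel₀ hℓ0.ne' d3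
        have d5 : x = 0 := by simpa using d1
        rw [d5] at hxz
        have d6 : (n : ℤ) ∣ z := by
          have := (dvd_neg (α := ℤ)).mpr hxz
          simpa using this
        obtain ⟨k, hk⟩ := d6
        rw [hk] at d4
        have d7 : (n : ℤ) * (n * k ^ 2) = n * 1 := by
          have : (n : ℤ) * (n * k ^ 2) = (n * k) ^ 2 := by ring
          rw [this, d4]; ring
        have d8 := mul_left_cancel₀ hn0.ne' d7
        have d9 : (n : ℤ) ∣ 1 := ⟨k ^ 2, d8.symm⟩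
        have := Int.le_of_dvd one_pos d9
        omega
      · left; rw [hq, c3]; ring
      · right; rw [hq, c3, hD']; ring
  rcases key with key | key
  · refine ⟨x, y, z, ?_, by linarith⟩
    intro hz1
    rw [hz1] at hQ
    rw [key] at hQ
    have h2 : x ^ 2 = D * y ^ 2 := by linarith
    obtain ⟨h3, h4⟩ := nonsq D hD h2
    rcases hne with h | h | h
    · exact h h3
    · exact h h4
    · exact h hz1
  · refine ⟨x * z + D * y, x + y * z, z ^ 2 - D, ?_, ?_⟩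
    · intro h0
      apply hD
      exact ⟨z, by linarith⟩
    · have h2 : x ^ 2 - D * y ^ 2 = ℓ * (z ^ 2 - D) := by linarith
      have h3 : (x * z + D * y) ^ 2 - D * (x + y * z) ^ 2 = (x ^ 2 - D * y ^ 2) * (z ^ 2 - D) := by
        ring
      rw [h3, h2]; ring

end Pool.Agent.T2H18.QS
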