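import Pool.Agent.T2H18.QS.Leg

set_option autoImplicit false

namespace Pool.Agent.T2H18.QS

variable {χ : ℤ → ℤ}

/-- an element of positive norm on which `χ` is `-1` -/
lemma supply (h : CM χ) (b c : ℤ) (hD : b ^ 2 - 4 * c ≠ 0) (ℓ : ℕ) (hℓ : ℓ.Prime)
    (h1 : ℓ ≡ 1 [MOD 4 * (b ^ 2 - 4 * c).natAbs]) (hχ : χ ℓ = -1) :
    ∃ x y : ℤ, 1 ≤ F b c x y ∧ χ (F b c x y) = -1 := by
  obtain ⟨D, hDd⟩ : ∃ D, D = b ^ 2 - 4 * c := ⟨_, rfl⟩
  rw [← hDd] at hD h1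
  have hF : ∀ X Y : ℤ, F b c (X - b * Y) (2 * Y) = X ^ 2 - D * Y ^ 2 := by
    intro X Y; rw [hDd]; unfold F; ring
  have hℓ0 : (0 : ℤ) < ℓ := by exact_mod_cast hℓ.pos
  by_cases hsq : IsSquare D
  · obtain ⟨d, hd⟩ := hsq
    have hd0 : d ≠ 0 := by rintro rfl; apply hD; rw [hd]; ring
    have h2 : ((2 * d : ℤ)) ∣ (ℓ : ℤ) - 1 := by
      have h3 : ((4 * D.natAbs : ℕ) : ℤ) ∣ (ℓ : ℤ) - 1 := by
        have := Nat.modEq_iff_dvd.mp h1.symm
        simpa using this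
      have h4 : (2 * d : ℤ) ∣ ((4 * D.natAbs : ℕ) : ℤ) := by
        push_cast
        rw [hd]
        have : |d * d| = d * d := abs_of_nonneg (mul_self_nonneg d)
        rw [this]
        exact ⟨2 * d, by ring⟩
      exact h4.trans h3
    obtain ⟨k, hk⟩ := h2
    -- ℓ = 1 + 2 d k ; X = 1 + d k ; Y = k
    refine ⟨(1 + d * k) - b * k, 2 * k, ?_, ?_⟩
    · rw [hF, hd]
      have : (1 + d * k) ^ 2 - d * d * k ^ 2 = 1 + 2 * d * k := by ring
      rw [this, ← hk]; linarith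
    · rw [hF, hd]
      have : (1 + d * k) ^ 2 - d * d * k ^ 2 = 1 + 2 * d * k := by ring
      rw [this, ← hk]
      have : (1 : ℤ) + (ℓ - 1) = ℓ := by ring
      rw [this, hχ]
  · have hD1 : D ≠ -1 := by
      intro h2
      rw [hDd] at h2
      rcases Int.even_or_odd b with hb | hb
      · obtain ⟨k, hk⟩ := hb
        rw [hk] at h2
        have h3 : 4 * (k ^ 2 - c) = -1 := by linarith [show (k + k) ^ 2 = 4 * k ^ 2 by ring]
        omega
      · obtain ⟨k, hk⟩ := hb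
        rw [hk] at h2
        have h3 : 4 * (k ^ 2 + k - c) = -2 := by
          linarith [show (2 * k + 1) ^ 2 = 4 * k ^ 2 + 4 * k + 1 by ring]
        omega
    obtain ⟨X, Y, Z, hZ, hXY⟩ := legendre D hsq hD1 ℓ hℓ h1
    refine ⟨X - b * Y, 2 * Y, ?_, ?_⟩
    · rw [hF, hXY]
      have : 0 < (ℓ : ℤ) * Z ^ 2 := mul_pos hℓ0 (by positivity)
      omega
    · rw [hF, hXY, h.mul _ _ hℓ0.ne' (pow_ne_zero 2 hZ), h.pow2 hZ, hχ, mul_one]

/-- both signs, infinitely often -/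
theorem main (h : CM χ) (b c : ℤ) (hD : b ^ 2 - 4 * c ≠ 0) (ℓ : ℕ) (hℓ : ℓ.Prime)
    (h1 : ℓ ≡ 1 [MOD 4 * (b ^ 2 - 4 * c).natAbs]) (hχ : χ ℓ = -1) (σ : ℤ)
    (hσ : σ = 1 ∨ σ = -1) (N : ℕ) :
    ∃ n : ℕ, N ≤ n ∧ 1 ≤ F b c n 1 ∧ χ (F b c n 1) = σ := by
  by_contra hcon
  push Not at hcon
  obtain ⟨ε, hε⟩ : ∃ ε, ε = -σ := ⟨_, rfl⟩
  obtain ⟨N0, hN0⟩ : ∃ N0 : ℤ, N0 = max (N : ℤ) (Mb b c) := ⟨_, rfl⟩
  have hMN : Mb b c ≤ N0 := by rw [hN0]; exact le_max_right _ _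
  have hNN : (N : ℤ) ≤ N0 := by rw [hN0]; exact le_max_left _ _
  have hM := Mb_pos b c
  have hpos : ∀ m, N0 ≤ m → 1 ≤ F b c m 1 := by
    intro m hm
    exact sec_pos b c m 1 (by norm_num) (by linarith) (by linarith)
  have hc : ∀ m, N0 ≤ m → χ (F b c m 1) = ε := by
    intro m hm
    have hm0 : 0 ≤ m := by linarith
    have hmn : (m.toNat : ℤ) = m := Int.toNat_of_nonneg hm0
    have hNm : N ≤ m.toNat := by
      have : (N : ℤ) ≤ (m.toNat : ℤ) := by rw [hmn]; linarith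
      exact_mod_cast this
    have h2 := hcon m.toNat hNm (by rw [hmn]; exact hpos m hm)
    rw [hmn] at h2
    rcases h.sgn _ (show F b c m 1 ≠ 0 by have := hpos m hm; omega) with h3 | h3 <;>
      rcases hσ with h4 | h4
    · exact absurd (h3.trans h4.symm) h2
    · rw [h3, hε, h4]; rfl
    · rw [h3, hε, h4]
    · exact absurd (h3.trans h4.symm) h2
  have hb : 0 ≤ 2 * N0 + b := by
    have h2 := neg_abs_le b
    have h3 : Mb b c = |b| + |c| + 1 := rfl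
    have h4 := abs_nonneg b
    have h5 := abs_nonneg c
    linarith
  have hε1 : ε = 1 := const_one h b c N0 ε (fun m hm _ => hc m hm) N0 le_rfl (hpos N0 le_rfl) hb
  have hg : ∀ m, 1 ≤ F b c m 1 → 0 ≤ 2 * m + b → χ (F b c m 1) = 1 := by
    intro m h2 h3
    refine down h b c N0 (fun m hm _ => by rw [hc m hm, hε1]) (N0 - m).toNat m ?_ h2 h3
    have := Int.self_le_toNat (N0 - m)
    linarith
  obtain ⟨x, y, h2, h3⟩ := supply h b c hD ℓ hℓ h1 hχ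
  rw [allpos h b c hg x y h2] at h3
  norm_num at h3

end Pool.Agent.T2H18.QS
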